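import Pool.Agent.H.MP_8e1908_an.B

set_option autoImplicit false
open Polynomial Filter Topology

namespace Pool.Agent.Results.MP_8e1908_an.No

/-- `d(a,P)`: the distance from `a` to the set of critical points of `P`. -/
noncomputable def dist' (a : ℂ) (P : ℂ[X]) : ℝ :=
  Metric.infDist a {ζ | P.derivative.IsRoot ζ}

/-- `δ_n(a)`. -/
noncomputable def delta (n : ℕ) (a : ℝ) : ℝ :=
  sSup {d | ∃ P : ℂ[X], P.natDegree = n ∧ P.IsRoot a ∧ (∀ z, P.IsRoot z → ‖z‖ ≤ 1) ∧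
    d = dist' a P}

theorem result (a : ℝ) (h0 : 0 < a) (h1 : a < 1) :
    (∃ r : ℝ, r < 1 ∧ ∀ᶠ n : ℕ in atTop, delta n a ≤ r ∧
      ∀ P : ℂ[X], P.natDegree = n → P.IsRoot a → (∀ z, P.IsRoot z → ‖z‖ ≤ 1) →
        ∃ ζ, P.derivative.IsRoot ζ ∧ ‖ζ - a‖ ≤ r) ∧
    ¬ Tendsto (fun n => delta n a) atTop (𝓝 1) := by
  obtain ⟨r, hr0, hr1, M, hM⟩ := Pool.Agent.H.MP_8e1908_an.main h0 h1
  have key : ∀ᶠ n : ℕ in atTop, delta n a ≤ r ∧
      ∀ P : ℂ[X], P.natDegree = n → P.IsRoot a → (∀ z, P.IsRoot z → ‖z‖ ≤ 1) →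
        ∃ ζ, P.derivative.IsRoot ζ ∧ ‖ζ - a‖ ≤ r := by
    filter_upwards [tendsto_natCast_atTop_atTop (R := ℝ).eventually_ge_atTop (M + 1),
      eventually_ge_atTop 1] with n hn hn1
    obtain ⟨N, rfl⟩ := Nat.exists_eq_add_of_le' hn1
    have H : ∀ P : ℂ[X], P.natDegree = N + 1 → P.IsRoot a → (∀ z, P.IsRoot z → ‖z‖ ≤ 1) →
        ∃ ζ, P.derivative.IsRoot ζ ∧ ‖ζ - a‖ ≤ r := by
      intro P hP ha hz
      have hP0 : P ≠ 0 := by
        rintro rfl
        simp at hP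
      obtain ⟨z, w, ez, ew, hd⟩ := Pool.Agent.H.MP_0234e1_an.factor P hP
      have hw : ∀ j, w j ∈ P.derivative.roots := fun j => by
        rw [← ew]; exact Multiset.mem_map_of_mem _ (Finset.mem_univ_val j)
      have ha' : (a : ℂ) ∈ Finset.univ.val.map z := by rw [ez]; exact (mem_roots hP0).2 ha
      obtain ⟨k₀, -, hk⟩ := Multiset.mem_map.1 ha'
      obtain ⟨j, hj⟩ := hM N (by push_cast at hn; linarith) z w hd (fun k => hz _
        (isRoot_of_mem_roots (by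
          rw [← ez]; exact Multiset.mem_map_of_mem _ (Finset.mem_univ_val k)))) (fun j => by
        have h2 := rootSet_derivative_subset_convexHull_rootSet (P := P)
          (natDegree_pos_iff_degree_pos.1 (by omega))
          (show w j ∈ P.derivative.rootSet ℂ by simpa [mem_rootSet'] using hw j)
        have h3 := convexHull_min (t := Metric.closedBall (0 : ℂ) 1) (fun x (hx : x ∈ P.rootSet ℂ) => by
          simpa using hz x (by simpa using (mem_rootSet'.1 hx).2)) (convex_closedBall _ _) h2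
        simpa using h3) k₀ hk
      exact ⟨w j, isRoot_of_mem_roots (hw j), by rw [norm_sub_rev]; exact hj.le⟩
    refine ⟨Real.sSup_le ?_ hr0.le, H⟩
    rintro _ ⟨P, hP, ha, hz, rfl⟩
    obtain ⟨ζ, h2, h3⟩ := H P hP ha hz
    exact (Metric.infDist_le_dist_of_mem (x := (a : ℂ)) (y := ζ)
      (s := {ζ | P.derivative.IsRoot ζ}) h2).trans (by rwa [dist_comm, dist_eq_norm])
  exact ⟨⟨r, hr1, key⟩, fun h => absurd (le_of_tendsto h (key.mono fun _ h => h.1)) hr1.not_ge⟩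

end Pool.Agent.Results.MP_8e1908_an.No
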